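import Pool.Agent.W787.PS.StmD

/-! PS-ISOG (helper782): isothermal atlas of a closed Riemannian surface. -/

set_option autoImplicit false

open MeasureTheory Set Metric Filter Topology
open scoped ContDiff

noncomputable section

namespace Pool.Agent.W782.PS

open Pool.Agent.W787.PS Pool.Agent.W787.PS.RiemSurface

/-! ### linear algebra -/

theorem det_eq (L : ℂ →L[ℝ] ℂ) :
    L.det = (L 1).re * (L Complex.I).im - (L 1).im * (L Complex.I).re := by
  have h : L.det = LinearMap.det (L : ℂ →ₗ[ℝ] ℂ) := rfl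
  rw [h, ← LinearMap.det_toMatrix Complex.basisOneI, Matrix.det_fin_two]
  simp [LinearMap.toMatrix_apply]
  ring

theorem expand (L : ℂ →L[ℝ] ℂ) (v : ℂ) : L v = v.re • L 1 + v.im • L Complex.I := by
  rw [← map_smul, ← map_smul, ← map_add]
  congr 1
  apply Complex.ext <;> simp

theorem expandR (α : ℂ →L[ℝ] ℝ) (v : ℂ) : α v = v.re * α 1 + v.im * α Complex.I := by
  rw [← smul_eq_mul, ← smul_eq_mul, ← map_smul, ← map_smul, ← map_add]
  congr 1
  apply Complex.ext <;> simp

theorem coef {E F G E' F' G' : ℝ} {L : ℂ →L[ℝ] ℂ}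
    (h : ∀ v, qf E F G v = qf E' F' G' (L v)) :
    E = E' * (L 1).re ^ 2 + 2 * F' * (L 1).re * (L 1).im + G' * (L 1).im ^ 2 ∧
    G = E' * (L Complex.I).re ^ 2 + 2 * F' * (L Complex.I).re * (L Complex.I).im +
      G' * (L Complex.I).im ^ 2 ∧
    F = E' * (L 1).re * (L Complex.I).re +
      F' * ((L 1).re * (L Complex.I).im + (L 1).im * (L Complex.I).re) +
      G' * (L 1).im * (L Complex.I).im := by
  have h1 := h 1
  have h2 := h Complex.I
  have h3 := h (1 + Complex.I)
  rw [map_add] at h3
  simp only [qf, Complex.one_re, Complex.one_im, Complex.I_re, Complex.I_im, Complex.add_re,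
    Complex.add_im] at h1 h2 h3
  refine ⟨by linarith, by linarith, ?_⟩
  linear_combination (1 / 2) * h3 - (1 / 2) * h1 - (1 / 2) * h2

theorem disc {E F G E' F' G' : ℝ} {L : ℂ →L[ℝ] ℂ}
    (h : ∀ v, qf E F G v = qf E' F' G' (L v)) :
    E * G - F ^ 2 = (E' * G' - F' ^ 2) * L.det ^ 2 := by
  obtain ⟨h1, h2, h3⟩ := coef h
  rw [h1, h2, h3, det_eq]
  ring

/-- the dual form -/
def dE (E F G : ℝ) (α β : ℂ →L[ℝ] ℝ) : ℝ :=
  (G * (α 1 * β 1) - F * (α 1 * β Complex.I + α Complex.I * β 1)
    + E * (α Complex.I * β Complex.I)) / (E * G - F ^ 2)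

theorem dual {E F G E' F' G' : ℝ} {L : ℂ →L[ℝ] ℂ}
    (h : ∀ v, qf E F G v = qf E' F' G' (L v)) (hne : E * G - F ^ 2 ≠ 0) (α β : ℂ →L[ℝ] ℝ) :
    dE E F G (α.comp L) (β.comp L) = dE E' F' G' α β := by
  have hd := disc h
  obtain ⟨h1, h2, h3⟩ := coef h
  have hne' : (E' * G' - F' ^ 2) * L.det ^ 2 ≠ 0 := by rwa [← hd]
  have hq : E' * G' - F' ^ 2 ≠ 0 := left_ne_zero_of_mul hne'
  have hD : L.det ^ 2 ≠ 0 := right_ne_zero_of_mul hne'
  unfold dE
  rw [hd, div_eq_div_iff hne' hq]
  simp only [ContinuousLinearMap.comp_apply]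
  rw [expandR α (L 1), expandR α (L Complex.I), expandR β (L 1), expandR β (L Complex.I),
    h1, h2, h3, det_eq]
  ring

theorem gdotE_eq (E F G : ℝ) (f g : ℂ → ℝ) (z : ℂ) :
    gdotE E F G f g z = dE E F G (fderiv ℝ f z) (fderiv ℝ g z) := rfl

theorem gdot_eq {m : ℝ} (hm : m ≠ 0) (f g : ℂ → ℝ) (z : ℂ) :
    gdot f g z / m = dE m 0 m (fderiv ℝ f z) (fderiv ℝ g z) := by
  unfold gdot dE
  field_simp
  ring

theorem qf_conf (m : ℝ) (w : ℂ) : qf m 0 m w = m * ‖w‖ ^ 2 := by
  rw [Complex.sq_norm, Complex.normSq_apply, qf]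
  ring

/-! ### the atlas -/

section

variable {M : Type} [TopologicalSpace M] [MeasurableSpace M]

theorem image_measurable [BorelSpace M] (e : OpenPartialHomeomorph M ℂ) {A : Set M}
    (hA : MeasurableSet A) (hsub : A ⊆ e.source) : MeasurableSet (e '' A) := by
  have h1 : e '' A = Subtype.val '' ((e.target.restrict e.symm) ⁻¹' A) := by
    ext z
    constructor
    · rintro ⟨x, hx, rfl⟩
      refine ⟨⟨e x, e.map_source (hsub hx)⟩, ?_, rfl⟩
      change e.symm (e x) ∈ A
      rwa [e.left_inv (hsub hx)]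
    · rintro ⟨⟨w, hw⟩, hwA, rfl⟩
      exact ⟨e.symm w, hwA, e.right_inv hw⟩
  rw [h1]
  apply e.open_target.measurableSet.subtype_image
  exact e.continuousOn_symm.restrict.measurable hA

variable (X : RiemSurface M)

theorem idx_mem (x : M) : x ∈ (X.chart (X.idx x)).source := Classical.choose_spec (X.cover x)

end

theorem isog (h1 : S_ISOL) : S_ISOG := by
  intro M _ _ _ _ _ X
  have hx := idx_mem X
  have hloc := fun x : M => h1 (X.E (X.idx x)) (X.F (X.idx x)) (X.G (X.idx x))
    (X.chart (X.idx x)).target (X.chart (X.idx x) x) (X.chart _).open_target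
    ((X.chart _).map_source (hx x)) (X.E_smooth _) (X.F_smooth _) (X.G_smooth _) (X.pos _)
  choose Ψ μ hz hsub hΨ hΨs hμ hμ0 hiso using hloc
  let C : M → OpenPartialHomeomorph M ℂ := fun x => (X.chart (X.idx x)).trans (Ψ x)
  have hCs : ∀ x p, p ∈ (C x).source ↔
      p ∈ (X.chart (X.idx x)).source ∧ X.chart (X.idx x) p ∈ (Ψ x).source := by
    intro x p
    change p ∈ ((X.chart (X.idx x)).trans (Ψ x)).source ↔ _
    rw [OpenPartialHomeomorph.trans_source]
    rfl
  have hCt : ∀ x w, w ∈ (C x).target ↔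
      w ∈ (Ψ x).target ∧ (Ψ x).symm w ∈ (X.chart (X.idx x)).target := by
    intro x w
    change w ∈ ((X.chart (X.idx x)).trans (Ψ x)).target ↔ _
    rw [OpenPartialHomeomorph.trans_target]
    rfl
  -- transitions from the charts of `X`
  have hsrc : ∀ (i : X.ι) (x : M) (p : ℂ), p ∈ ((X.chart i).symm.trans (C x)).source ↔
      p ∈ (X.chart i).target ∧ (X.chart i).symm p ∈ (X.chart (X.idx x)).source ∧
        X.chart (X.idx x) ((X.chart i).symm p) ∈ (Ψ x).source := by
    intro i x p
    rw [OpenPartialHomeomorph.trans_source, OpenPartialHomeomorph.symm_source, mem_inter_iff,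
      mem_preimage, hCs]
  have hsrcX : ∀ (i : X.ι) (x : M) (p : ℂ), p ∈ ((X.chart i).symm.trans (C x)).source →
      p ∈ ((X.chart i).symm.trans (X.chart (X.idx x))).source := by
    intro i x p hp
    rw [OpenPartialHomeomorph.trans_source, OpenPartialHomeomorph.symm_source]
    obtain ⟨a, b, c⟩ := (hsrc i x p).1 hp
    exact ⟨a, b⟩
  have hA : ∀ (i : X.ι) (x : M), ContDiffOn ℝ ∞ (C x ∘ (X.chart i).symm)
      ((X.chart i).symm.trans (C x)).source := by
    intro i x
    have e : C x ∘ (X.chart i).symm = Ψ x ∘ (X.chart (X.idx x) ∘ (X.chart i).symm) := rfl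
    rw [e]
    refine (hΨ x).comp ((X.trans_smooth i (X.idx x)).mono (hsrcX i x)) ?_
    intro p hp
    exact ((hsrc i x p).1 hp).2.2
  have hAiso : ∀ (i : X.ι) (x : M), ∀ p ∈ ((X.chart i).symm.trans (C x)).source, ∀ v : ℂ,
      qf (X.E i p) (X.F i p) (X.G i p) v =
        μ x (C x ((X.chart i).symm p)) * ‖fderiv ℝ (C x ∘ (X.chart i).symm) p v‖ ^ 2 := by
    intro i x p hp v
    have e : C x ∘ (X.chart i).symm = Ψ x ∘ (X.chart (X.idx x) ∘ (X.chart i).symm) := rfl
    obtain ⟨a, b, c⟩ := (hsrc i x p).1 hp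
    have d1 : DifferentiableAt ℝ (Ψ x) ((X.chart (X.idx x) ∘ (X.chart i).symm) p) :=
      ((hΨ x).contDiffAt ((Ψ x).open_source.mem_nhds c)).differentiableAt (by simp)
    have d2 : DifferentiableAt ℝ (X.chart (X.idx x) ∘ (X.chart i).symm) p :=
      ((X.trans_smooth i (X.idx x)).contDiffAt
        ((OpenPartialHomeomorph.open_source _).mem_nhds (hsrcX i x p hp))).differentiableAt
        (by simp)
    rw [e, fderiv_comp p d1 d2, ← X.trans_isom i (X.idx x) p (hsrcX i x p hp) v,
      hiso x _ c]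
    rfl
  -- the composition with the inverse of the isothermal coordinates
  have hBs : ∀ (x y : M), ∀ w ∈ ((C x).symm.trans (C y)).source, w ∈ (Ψ x).target ∧
      (Ψ x).symm w ∈ ((X.chart (X.idx x)).symm.trans (C y)).source := by
    intro x y w hw
    rw [OpenPartialHomeomorph.trans_source, OpenPartialHomeomorph.symm_source, mem_inter_iff,
      mem_preimage, hCt] at hw
    refine ⟨hw.1.1, ?_⟩
    rw [OpenPartialHomeomorph.trans_source, OpenPartialHomeomorph.symm_source]
    exact ⟨hw.1.2, hw.2⟩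
  let Y : ClosedSurface M :=
    { ι := M
      chart := C
      cover := fun x => ⟨x, (hCs x x).2 ⟨hx x, hz x⟩⟩
      dens := μ
      dens_pos := fun x w hw => hμ0 x w ((hCt x w).1 hw).1
      dens_smooth := fun x => (hμ x).mono fun w hw => ((hCt x w).1 hw).1
      trans_smooth := by
        intro x y
        have e : C y ∘ (C x).symm = (C y ∘ (X.chart (X.idx x)).symm) ∘ (Ψ x).symm := rfl
        rw [e]
        refine (hA (X.idx x) y).comp ((hΨs x).mono fun w hw => (hBs x y w hw).1) ?_
        intro w hw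
        exact (hBs x y w hw).2
      trans_isom := by
        intro x y w hw v
        have e : C y ∘ (C x).symm = (C y ∘ (X.chart (X.idx x)).symm) ∘ (Ψ x).symm := rfl
        obtain ⟨a, b⟩ := hBs x y w hw
        have d1 : DifferentiableAt ℝ (C y ∘ (X.chart (X.idx x)).symm) ((Ψ x).symm w) :=
          ((hA (X.idx x) y).contDiffAt
            ((OpenPartialHomeomorph.open_source _).mem_nhds b)).differentiableAt (by simp)
        have d2 : DifferentiableAt ℝ (Ψ x).symm w :=
          ((hΨs x).contDiffAt ((Ψ x).open_target.mem_nhds a)).differentiableAt (by simp)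
        have d3 : DifferentiableAt ℝ (Ψ x) ((Ψ x).symm w) :=
          ((hΨ x).contDiffAt ((Ψ x).open_source.mem_nhds
            ((Ψ x).map_target a))).differentiableAt (by simp)
        have h2 := hAiso (X.idx x) y _ b (fderiv ℝ (Ψ x).symm w v)
        rw [hiso x _ ((Ψ x).map_target a)] at h2
        have h3 : fderiv ℝ (Ψ x) ((Ψ x).symm w) (fderiv ℝ (Ψ x).symm w v) = v := by
          have h4 : fderiv ℝ (Ψ x ∘ (Ψ x).symm) w = ContinuousLinearMap.id ℝ ℂ := by
            have h5 : Ψ x ∘ (Ψ x).symm =ᶠ[𝓝 w] id := by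
              filter_upwards [(Ψ x).open_target.mem_nhds a] with w' hw'
              exact (Ψ x).right_inv hw'
            rw [h5.fderiv_eq, fderiv_id]
          rw [fderiv_comp w d3 d2] at h4
          have h6 := congrArg (fun L => L v) h4
          exact h6
        rw [h3, (Ψ x).right_inv a] at h2
        rw [e, fderiv_comp w d1 d2]
        exact h2.symm
      vol := X.vol
      vol_chart := by
        intro x A hAm hAs
        have hAs' : A ⊆ (X.chart (X.idx x)).source := fun p hp => ((hCs x p).1 (hAs hp)).1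
        have hBm := image_measurable (X.chart (X.idx x)) hAm hAs'
        have hBsub : X.chart (X.idx x) '' A ⊆ (Ψ x).source := by
          rintro _ ⟨p, hp, rfl⟩
          exact ((hCs x p).1 (hAs hp)).2
        have e : C x '' A = Ψ x '' (X.chart (X.idx x) '' A) := by
          rw [← image_comp]
          rfl
        rw [X.vol_chart (X.idx x) A hAm hAs', e,
          lintegral_image_eq_lintegral_abs_det_fderiv_mul volume hBm
            (f' := fun z => fderiv ℝ (Ψ x) z)]
        · refine setLIntegral_congr_fun hBm ?_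
          intro z hz'
          have hzs := hBsub hz'
          have h2 : ∀ v, qf (X.E (X.idx x) z) (X.F (X.idx x) z) (X.G (X.idx x) z) v =
              qf (μ x (Ψ x z)) 0 (μ x (Ψ x z)) (fderiv ℝ (Ψ x) z v) := by
            intro v
            rw [qf_conf, hiso x z hzs v]
          have h3 := disc h2
          have hmpos := hμ0 x _ ((Ψ x).map_source hzs)
          change ENNReal.ofReal (Real.sqrt _) = ENNReal.ofReal |_| * ENNReal.ofReal _
          rw [h3, ← ENNReal.ofReal_mul (abs_nonneg _)]
          congr 1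
          have h4 : (μ x (Ψ x z) * μ x (Ψ x z) - 0 ^ 2) * (fderiv ℝ (Ψ x) z).det ^ 2 =
              (|(fderiv ℝ (Ψ x) z).det| * μ x (Ψ x z)) ^ 2 := by
            rw [mul_pow, sq_abs]
            ring
          rw [h4, Real.sqrt_sq (mul_nonneg (abs_nonneg _) hmpos.le)]
        · intro z hz'
          exact ((hΨ x).contDiffAt ((Ψ x).open_source.mem_nhds
            (hBsub hz'))).differentiableAt (by simp) |>.hasFDerivAt.hasFDerivWithinAt
        · exact (Ψ x).injOn.mono hBsub
      vol_univ := X.vol_univ }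
  have hYX : ∀ u, X.Smooth u → Y.Smooth u := by
    intro u hu x
    change ContDiffOn ℝ ∞ (u ∘ (C x).symm) (C x).target
    have e : u ∘ (C x).symm = (u ∘ (X.chart (X.idx x)).symm) ∘ (Ψ x).symm := rfl
    rw [e]
    refine (hu (X.idx x)).comp ((hΨs x).mono fun w hw => ((hCt x w).1 hw).1) ?_
    intro w hw
    exact ((hCt x w).1 hw).2
  have hloceq : ∀ (u : M → ℝ) (i : X.ι) (x : M), ∀ p ∈ ((X.chart i).symm.trans (C x)).source,
      u ∘ (X.chart i).symm =ᶠ[𝓝 p] (u ∘ (C x).symm) ∘ (C x ∘ (X.chart i).symm) := by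
    intro u i x p hp
    filter_upwards [(OpenPartialHomeomorph.open_source _).mem_nhds hp] with q hq
    rw [OpenPartialHomeomorph.trans_source] at hq
    change u ((X.chart i).symm q) = u ((C x).symm (C x ((X.chart i).symm q)))
    rw [(C x).left_inv hq.2]
  refine ⟨Y, rfl, ?_, ?_⟩
  · intro u
    refine ⟨?_, hYX u⟩
    intro hu i p hp
    have hps : p ∈ ((X.chart i).symm.trans (C ((X.chart i).symm p))).source := by
      rw [hsrc]
      exact ⟨hp, hx _, hz _⟩
    have h2 : ContDiffAt ℝ ∞ (u ∘ (C ((X.chart i).symm p)).symm)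
        (C ((X.chart i).symm p) ((X.chart i).symm p)) := by
      have h3 := hu ((X.chart i).symm p)
      refine ContDiffOn.contDiffAt h3 ?_
      apply (C ((X.chart i).symm p)).open_target.mem_nhds
      apply (C ((X.chart i).symm p)).map_source
      exact (hCs _ _).2 ⟨hx _, hz _⟩
    have h4 : ContDiffAt ℝ ∞ (C ((X.chart i).symm p) ∘ (X.chart i).symm) p :=
      (hA i _).contDiffAt ((OpenPartialHomeomorph.open_source _).mem_nhds hps)
    have h5 : ContDiffAt ℝ ∞ ((u ∘ (C ((X.chart i).symm p)).symm) ∘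
        (C ((X.chart i).symm p) ∘ (X.chart i).symm)) p := ContDiffAt.comp p h2 h4
    exact (h5.congr_of_eventuallyEq (hloceq u i _ p hps)).contDiffWithinAt
  · intro u v hu hv
    funext x'
    set y : M := Y.idx x' with hy
    have hyx : x' ∈ (C y).source := Classical.choose_spec (Y.cover x')
    set j := X.idx x' with hj
    have hjx : x' ∈ (X.chart j).source := hx x'
    set p := X.chart j x' with hp
    have hsymm : (X.chart j).symm p = x' := (X.chart j).left_inv hjx
    have hpt : p ∈ (X.chart j).target := (X.chart j).map_source hjx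
    have hps : p ∈ ((X.chart j).symm.trans (C y)).source := by
      rw [OpenPartialHomeomorph.trans_source]
      refine ⟨hpt, ?_⟩
      rw [mem_preimage, hsymm]
      exact hyx
    have hm := hμ0 y (C y x') ((hCt y _).1 ((C y).map_source hyx)).1
    have h2 : ∀ v, qf (X.E j p) (X.F j p) (X.G j p) v =
        qf (μ y (C y x')) 0 (μ y (C y x')) (fderiv ℝ (C y ∘ (X.chart j).symm) p v) := by
      intro v
      rw [qf_conf, hAiso j y p hps v, hsymm]
    have hd1 : DifferentiableAt ℝ (C y ∘ (X.chart j).symm) p :=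
      ((hA j y).contDiffAt
        ((OpenPartialHomeomorph.open_source _).mem_nhds hps)).differentiableAt (by simp)
    have hval : (C y ∘ (X.chart j).symm) p = C y x' := by
      change C y ((X.chart j).symm p) = C y x'
      rw [hsymm]
    have hder : ∀ f : M → ℝ, X.Smooth f → fderiv ℝ (f ∘ (X.chart j).symm) p =
        (fderiv ℝ (f ∘ (C y).symm) (C y x')).comp (fderiv ℝ (C y ∘ (X.chart j).symm) p) := by
      intro f hf
      rw [(hloceq f j y p hps).fderiv_eq]
      have hd2 : DifferentiableAt ℝ (f ∘ (C y).symm) ((C y ∘ (X.chart j).symm) p) := by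
        rw [hval]
        have h3 := hYX f hf y
        exact (ContDiffOn.contDiffAt h3
          ((C y).open_target.mem_nhds ((C y).map_source hyx))).differentiableAt (by simp)
      rw [fderiv_comp p hd2 hd1, hval]
    have e1 : Y.gip u v x' = gdot (u ∘ (C y).symm) (v ∘ (C y).symm) (C y x') / μ y (C y x') := rfl
    have e2 : X.gip u v x' = gdotE (X.E j p) (X.F j p) (X.G j p) (u ∘ (X.chart j).symm)
      (v ∘ (X.chart j).symm) p := rfl
    rw [e1, e2, gdot_eq hm.ne', gdotE_eq, hder u hu, hder v hv,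
      dual h2 (X.pos j p hpt).2.ne']

end Pool.Agent.W782.PS
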